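import Mathlib

set_option autoImplicit false
open Finset Filter Topology Function
open scoped Classical Nat

namespace Pool.Agent.H.MP_79ff05_co

variable {V W : Type} [Fintype V] [Fintype W]

noncomputable def cl (G : SimpleGraph V) (a : ℕ) : Finset (Fin a → V) :=
  {x | Pairwise fun i j => G.Adj (x i) (x j)}

theorem cl_inj {G : SimpleGraph V} {a : ℕ} {x : Fin a → V} (h : x ∈ cl G a) : Injective x :=
  fun i j e => by_contra fun n => ((mem_filter.1 h).2 n).ne e

theorem cl_card (G : SimpleGraph V) (a : ℕ) : #(cl G a) = a ! * #(G.cliqueFinset a) := by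
  rw [card_eq_sum_card_fiberwise (f := fun x => univ.image x) (t := G.cliqueFinset a), mul_comm]
  · refine sum_const_nat fun S hS => ?_
    rw [SimpleGraph.mem_cliqueFinset_iff] at hS
    have : Fintype.card (Fin a ↪ S) = a ! := by simp [hS.2, Nat.descFactorial_self]
    rw [← this, ← card_univ]
    symm
    refine card_bij (fun e _ i => (e i : V)) (fun e _ => ?_) (fun e _ e' _ h => ?_) fun x hx => ?_
    · simp only [cl, mem_filter, mem_univ, true_and]
      refine ⟨fun i j h => hS.1 (e i).2 (e j).2 fun n => h (e.injective (Subtype.ext n)),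
        eq_of_subset_of_card_le (fun v hv => ?_) ?_⟩
      · obtain ⟨i, -, rfl⟩ := mem_image.1 hv; exact (e i).2
      · rw [card_image_of_injective (f := fun i => (e i : V)) _
          (Subtype.val_injective.comp e.injective)]; simp [hS.2]
    · ext i; exact congrFun h i
    · obtain ⟨h1, rfl⟩ := mem_filter.1 hx
      exact ⟨⟨fun i => ⟨x i, mem_image_of_mem _ (mem_univ _)⟩, fun i j h =>
        cl_inj h1 (congrArg Subtype.val h)⟩, mem_univ _, rfl⟩
  · intro x hx
    simp only [SimpleGraph.coe_cliqueFinset, SimpleGraph.mem_cliqueSet_iff]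
    refine ⟨fun u hu v hv h => ?_, by rw [card_image_of_injective _ (cl_inj hx)]; simp⟩
    obtain ⟨i, -, rfl⟩ := mem_image.1 hu
    obtain ⟨j, -, rfl⟩ := mem_image.1 hv
    exact (mem_filter.1 hx).2 fun e => h (by rw [e])

theorem cl_two (G : SimpleGraph V) : #(cl G 2) = ∑ v, ∑ w, if G.Adj v w then 1 else 0 := by
  rw [← Fintype.sum_prod_type', ← card_filter]
  refine card_equiv (piFinTwoEquiv fun _ => V) fun x => ?_
  simp [cl, Pairwise, Fin.forall_fin_two, G.adj_comm (x 1)]

theorem cl_deg (G : SimpleGraph V) : #(cl G 2) = ∑ v, G.degree v := by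
  rw [cl_two]
  refine sum_congr rfl fun v _ => ?_
  rw [← card_filter, ← SimpleGraph.card_neighborFinset_eq_degree, SimpleGraph.neighborFinset_eq_filter]

theorem blow (H : SimpleGraph W) (t a : ℕ) :
    #(cl (H.comap (Prod.fst : W × Fin t → W)) a) = #(cl H a) * t ^ a := by
  have : t ^ a = #(univ : Finset (Fin a → Fin t)) := by simp
  rw [this, ← card_product]
  refine card_equiv (Equiv.arrowProdEquivProdArrow _ _ _) fun x => ?_
  simp [cl]

theorem pad {r s : ℕ} (hr : 2 ≤ r) (H : SimpleGraph W) (h : cl H (r + 1) = ∅) (p : ℕ) :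
    ∃ (U : Type) (_ : Fintype U) (K : SimpleGraph U), cl K (r + 1) = ∅ ∧
      #(cl K 2) = #(cl H 2) + 2 * p ∧ #(cl H s) ≤ #(cl K s) := by
  induction p with
  | zero => exact ⟨W, _, H, h, rfl, le_rfl⟩
  | succ p ih =>
    obtain ⟨U, _, K, h1, h2, h3⟩ := ih
    refine ⟨U ⊕ Fin 2, inferInstance, K.sum ⊤, eq_empty_of_forall_notMem fun x hx => ?_, ?_,
      h3.trans (card_le_card_of_injOn (Sum.inl ∘ ·) (fun x hx => ?_) fun x _ y _ e =>
        Sum.inl_injective.comp_left e)⟩
    · have hp := (mem_filter.1 hx).2
      rcases e : x 0 with v | w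
      · choose g hg using show ∀ j, ∃ v, x j = .inl v from fun j => by
          rcases e' : x j with v | w
          · exact ⟨_, rfl⟩
          · have := @hp 0 j (by rintro rfl; simp [e] at e'); simp [e, e'] at this
        exact notMem_empty g (h1 ▸ mem_filter.2 ⟨mem_univ _, fun i j n => by
          simpa [hg] using hp n⟩)
      · choose g hg using show ∀ j, ∃ v, x j = .inr v from fun j => by
          rcases e' : x j with v | w
          · have := @hp 0 j (by rintro rfl; simp [e] at e'); simp [e, e'] at this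
          · exact ⟨_, rfl⟩
        have := Fintype.card_le_of_injective g fun i j n => cl_inj hx (by rw [hg, hg, n])
        simp at this; omega
    · rw [mul_add, ← add_assoc, ← h2, cl_two, cl_two]
      simp only [Fintype.sum_sum_type, SimpleGraph.sum_adj_inl, SimpleGraph.sum_adj_inr,
        SimpleGraph.not_adj_sum_inl_inr, (K.sum ⊤).adj_comm (.inr _) (.inl _)]
      simp
    · simpa [cl] using hx

theorem low (G : SimpleGraph V) (P : V → Prop) {s : ℕ} (D : ℝ) (hD : ∀ v, ¬ P v → G.degree v ≤ D)
    (D0 : 0 ≤ D) : (#(cl G (s + 2)) : ℝ) ≤ #(cl (G.comap (Subtype.val : {v // P v} → V)) (s + 2)) +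
      (s + 2) * (D ^ s * #(cl G 2)) := by
  have h1 : #(cl G (s + 2)) ≤ #(cl (G.comap (Subtype.val : {v // P v} → V)) (s + 2)) +
      ∑ i : Fin (s + 2), ∑ v with ¬ P v, G.degree v ^ (s + 1) := by
    refine (card_le_card (t := (cl (G.comap (Subtype.val : {v // P v} → V)) (s + 2)).image
      (Subtype.val ∘ ·) ∪ univ.biUnion fun i : Fin (s + 2) => (univ.filter fun v => ¬ P v).biUnion
        fun v => Fintype.piFinset (update (fun _ => G.neighborFinset v) i {v})) fun x hx => ?_).trans
      ((card_union_le _ _).trans (add_le_add card_image_le (card_biUnion_le.trans (sum_le_sum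
        fun i _ => card_biUnion_le.trans (sum_le_sum fun v _ => ?_)))))
    · by_cases h : ∀ i, P (x i)
      · exact mem_union_left _ (mem_image.2 ⟨fun i => ⟨x i, h i⟩, by simpa [cl] using hx, rfl⟩)
      · obtain ⟨i, hi⟩ := not_forall.1 h
        refine mem_union_right _ (mem_biUnion.2 ⟨i, mem_univ _, mem_biUnion.2 ⟨x i, by simpa using hi,
          Fintype.mem_piFinset.2 fun j => ?_⟩⟩)
        rcases eq_or_ne j i with rfl | n
        · simp
        · simpa [n] using (mem_filter.1 hx).2 n.symm
    · rw [Fintype.card_piFinset, Fin.prod_univ_succAbove _ i]; simp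
  have h2 : (∑ v with ¬ P v, G.degree v ^ (s + 1) : ℝ) ≤ D ^ s * #(cl G 2) := by
    rw [cl_deg, Nat.cast_sum, mul_sum, sum_filter]
    refine sum_le_sum fun v _ => ?_
    split_ifs with h
    · positivity
    · rw [pow_succ]; gcongr; exact hD v h
  refine (Nat.cast_le.2 h1).trans ?_
  push_cast
  simp only [sum_const, card_univ, Fintype.card_fin, nsmul_eq_mul]
  push_cast; gcongr

theorem fib {T : Type} [Fintype T] [DecidableEq T] {k : ℕ} {u : T → Fin k} (hu : Injective u) (A : Finset (T → V)) :
    #{f : Fin k → V | f ∘ u ∈ A} * Fintype.card V ^ Fintype.card T = #A * Fintype.card V ^ k := by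
  have e : ∀ a b : T → V, #{f : Fin k → V | f ∘ u = a} ≤ #{f : Fin k → V | f ∘ u = b} := fun a b =>
    card_le_card_of_injOn (extend u b) (fun f _ => by simpa using extend_comp hu b f) fun f hf g hg h => by
      ext i
      by_cases hi : ∃ j, u j = i
      · obtain ⟨j, rfl⟩ := hi
        exact (congrFun (mem_filter.1 hf).2 j).trans (congrFun (mem_filter.1 hg).2 j).symm
      · simpa [extend_apply' _ _ _ hi] using congrFun h i
  rw [card_eq_sum_card_fiberwise (f := (· ∘ u)) (t := A) (fun f hf => by simpa using hf), sum_mul,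
    card_eq_sum_ones A, sum_mul]
  refine sum_congr rfl fun a ha => ?_
  have : Fintype.card V ^ k = #(univ : Finset (Fin k → V)) := by simp
  rw [this, card_eq_sum_card_fiberwise (s := univ) (f := (· ∘ u)) (t := univ) (fun f hf => by simp),
    sum_congr rfl fun b _ => (e b a).antisymm (e a b), filter_filter]
  simp [mul_comm]; left; congr 1; ext f; simp; rintro rfl; exact ha

end Pool.Agent.H.MP_79ff05_co
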