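import Pool.Agent.H.MP_79ff05_co.A

set_option autoImplicit false
open Finset Filter Topology Function
open scoped Classical Nat

namespace Pool.Agent.H.MP_79ff05_co

variable {V : Type} [Fintype V]

noncomputable def pre {T : Type} [Fintype T] [DecidableEq T] {k : ℕ} (A : Finset (T → V))
    (f : Fin k → V) : Finset (T → Fin k) := {u | f ∘ u ∈ A}

theorem samp {T : Type} [Fintype T] [DecidableEq T] (k : ℕ) (A : Finset (T → V))
    (n0 : 0 < Fintype.card V) : ∃ E : ℝ, 0 ≤ E ∧ ((∀ x ∈ A, Injective x) → E = 0) ∧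
    E ≤ (k ^ Fintype.card T - k.descFactorial (Fintype.card T)) * Fintype.card V ^ k ∧
    ∑ f : Fin k → V, (#(pre A f) : ℝ) = k.descFactorial (Fintype.card T) *
      (#A / Fintype.card V ^ Fintype.card T * Fintype.card V ^ k) + E := by
  have c1 : #{u : T → Fin k | Injective u} = k.descFactorial (Fintype.card T) := by
    rw [← Fintype.card_subtype, Fintype.card_congr (Equiv.subtypeInjectiveEquivEmbedding _ _)]
    simp
  refine ⟨∑ u : T → Fin k with ¬ Injective u, (#{f : Fin k → V | f ∘ u ∈ A} : ℝ), by positivity,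
    fun h => sum_eq_zero fun u hu => ?_, ?_, ?_⟩
  · simp only [Nat.cast_eq_zero, card_eq_zero, filter_eq_empty_iff]
    exact fun f _ e => (mem_filter.1 hu).2 (h _ e).of_comp
  · have := card_filter_add_card_filter_not (s := (univ : Finset (T → Fin k))) Injective
    simp only [c1, Fintype.card_fin, card_univ, Fintype.card_pi, prod_const] at this
    refine (sum_le_card_nsmul _ _ (Fintype.card V ^ k : ℝ) fun u _ => ?_).trans ?_
    · exact_mod_cast (card_le_univ _).trans (by simp)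
    · rw [nsmul_eq_mul]; gcongr
      rw [le_sub_iff_add_le']; exact_mod_cast this.le
  simp only [pre, card_filter, Nat.cast_sum]
  rw [sum_comm, ← sum_filter_add_sum_filter_not univ Injective]
  congr 1
  rw [sum_congr rfl (g := fun _ => (#A / Fintype.card V ^ Fintype.card T * Fintype.card V ^ k : ℝ))
    fun u hu => ?_, sum_const, nsmul_eq_mul, c1]
  have := congrArg (Nat.cast : ℕ → ℝ) (fib (mem_filter.1 hu).2 A)
  rw [card_filter] at this
  push_cast at this ⊢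
  field_simp; exact this

noncomputable def pw (G : SimpleGraph V) (s : ℕ) : Finset (Fin s × Fin 2 → V) :=
  {x | ∀ i, (fun j => x (i, j)) ∈ cl G 2}

theorem pw_card (G : SimpleGraph V) (s : ℕ) : #(pw G s) = #(cl G 2) ^ s := by
  have : #(cl G 2) ^ s = #(Fintype.piFinset fun _ : Fin s => cl G 2) := by simp
  rw [this]
  exact card_equiv (Equiv.curry _ _ _) fun x => by simp [pw]; rfl

theorem ineq (G : SimpleGraph V) (n0 : 0 < Fintype.card V) {r s k : ℕ} {c : ℝ} (c0 : 0 ≤ c)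
    (hc : ∀ H : SimpleGraph (Fin k), cl H r = ∅ → (#(cl H s) : ℝ) ^ 2 ≤ c * #(cl H 2) ^ s) :
    (k.descFactorial s * (#(cl G s) / Fintype.card V ^ s) : ℝ) ^ 2 ≤
      c * (k ^ (s * 2) * (#(cl G 2) ^ s / Fintype.card V ^ (s * 2)) +
        (k ^ (s * 2) - k.descFactorial (s * 2))) +
      k ^ (s * 2) * (k ^ r * (#(cl G r) / Fintype.card V ^ r)) := by
  have N0 : (0 : ℝ) < Fintype.card V ^ k := by positivity
  have e : ∀ a (f : Fin k → V), pre (cl G a) f = cl (G.comap f) a := fun a f => by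
    ext; simp [cl, pre]
  have d : ∀ a, (k.descFactorial a : ℝ) ≤ k ^ a := fun a => by
    exact_mod_cast Nat.descFactorial_le_pow k a
  obtain ⟨E1, -, e1, -, h1⟩ := samp k (cl G s) n0
  obtain ⟨E2, -, -, h4, h2⟩ := samp k (pw G s) n0
  obtain ⟨E3, -, e3, -, h3⟩ := samp k (cl G r) n0
  rw [e1 fun _ => cl_inj] at h1
  rw [e3 fun _ => cl_inj] at h3
  have h5 : ∀ f : Fin k → V, (#(pre (cl G s) f) : ℝ) ^ 2 ≤
      c * #(pre (pw G s) f) + k ^ (s * 2) * #(pre (cl G r) f) := fun f => by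
    rw [e, e, show pre (pw G s) f = pw (G.comap f) s by ext; simp [pw, cl, pre], pw_card]
    by_cases h : cl (G.comap f) r = ∅
    · simpa [h] using hc _ h
    · have a1 : (1 : ℝ) ≤ #(cl (G.comap f) r) := by
        exact_mod_cast (nonempty_iff_ne_empty.2 h).card_pos
      have a2 : (#(cl (G.comap f) s) : ℝ) ≤ k ^ s := by
        exact_mod_cast (card_le_univ _).trans (by simp)
      calc _ ≤ 0 + ((k : ℝ) ^ s) ^ 2 * 1 := by rw [zero_add, mul_one]; gcongr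
        _ ≤ _ := by rw [← pow_mul]; gcongr; positivity
  have h6 := (sq_sum_le_card_mul_sum_sq (s := univ)).trans (mul_le_mul_of_nonneg_left
    (sum_le_sum fun f _ => h5 f) (by positivity))
  simp only [sum_add_distrib, ← mul_sum, card_univ, Fintype.card_pi, prod_const, Fintype.card_fin,
    Fintype.card_prod, add_zero, pw_card, Nat.cast_pow] at h1 h2 h3 h4 h6
  refine le_of_mul_le_mul_right ?_ (pow_pos N0 2)
  rw [← mul_pow, mul_assoc]
  refine (pow_le_pow_left₀ (by positivity) h1.ge 2).trans (h6.trans ?_)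
  rw [sq, ← mul_assoc, mul_comm]
  gcongr
  rw [add_mul, mul_assoc, mul_assoc, add_mul]
  gcongr
  · refine h2.le.trans (add_le_add ?_ h4)
    rw [mul_assoc]; gcongr; exact d _
  · refine h3.le.trans ?_
    rw [mul_assoc]; gcongr; exact d _

theorem blow2 {r s k : ℕ} (hr : 2 ≤ r) (hs : 2 ≤ s) (k1 : 1 ≤ k) {m : ℕ} {μ : ℝ}
    (hm : (k : ℝ) ^ 2 ≤ √(2 * m)) (hμ : ∀ (W : Type) [Fintype W] (H : SimpleGraph W),
      cl H (r + 1) = ∅ → #(cl H 2) = 2 * m → #(cl H s) ≤ μ) (H : SimpleGraph (Fin k))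
    (h : cl H (r + 1) = ∅) :
    (#(cl H s) : ℝ) ^ 2 * ((1 - 1 / k) * √(2 * m)) ^ (s * 2) ≤ μ ^ 2 * #(cl H 2) ^ s := by
  have k0 : (0 : ℝ) < k := by positivity
  rcases (cl H s).eq_empty_or_nonempty with e | ⟨x, hx⟩
  · simp [e]; positivity
  have a0 : (0 : ℝ) < #(cl H 2) := by
    refine Nat.cast_pos.2 (card_pos.2 ⟨x ∘ Fin.castLE hs, mem_filter.2 ⟨mem_univ _, fun i j n =>
      (mem_filter.1 hx).2 fun e => n (Fin.castLE_injective _ e)⟩⟩)
  have a1 : √(#(cl H 2)) ≤ k := Real.sqrt_le_iff.2 ⟨k0.le, by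
    exact_mod_cast (card_le_univ _).trans (by simp)⟩
  obtain ⟨z, hz⟩ : ∃ z, z = √(2 * m) / √(#(cl H 2)) := ⟨_, rfl⟩
  have z1 : (k : ℝ) ≤ z := by
    rw [hz, le_div_iff₀ (by positivity)]; nlinarith
  have a2 : ⌊z⌋₊ ^ 2 * #(cl H 2) ≤ 2 * m := by
    have : (⌊z⌋₊ : ℝ) ^ 2 ≤ z ^ 2 := by gcongr; exact Nat.floor_le (by linarith)
    rw [hz, div_pow, Real.sq_sqrt (by positivity), Real.sq_sqrt a0.le, le_div_iff₀ a0, ← hz] at this
    exact_mod_cast this
  obtain ⟨e, he⟩ : 2 ∣ #(cl H 2) := ⟨_, cl_card H 2⟩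
  obtain ⟨U, _, K, h1, h2, h3⟩ := pad (s := s) hr (H.comap (Prod.fst : Fin k × Fin ⌊z⌋₊ → Fin k))
    (card_eq_zero.1 (by rw [blow, h]; simp)) (m - ⌊z⌋₊ ^ 2 * e)
  have a3 := (Nat.cast_le.2 h3).trans (hμ U K h1 (by
    rw [he, mul_left_comm] at a2
    rw [h2, blow, he, mul_assoc, mul_comm e]; omega))
  have a4 : (1 - 1 / k) * √(2 * m) ≤ ⌊z⌋₊ * √(#(cl H 2)) := by
    rw [← div_le_iff₀ (by positivity), mul_div_assoc, ← hz]
    have : 1 ≤ z / k := (one_le_div k0).2 z1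
    have := Nat.lt_floor_add_one z
    rw [sub_mul, one_mul, one_div_mul_eq_div]; linarith
  rw [blow] at a3; push_cast at a3
  calc _ ≤ (#(cl H s) : ℝ) ^ 2 * (⌊z⌋₊ * √(#(cl H 2))) ^ (s * 2) := by
        gcongr; exact mul_nonneg (sub_nonneg.2 ((div_le_one k0).2 (by exact_mod_cast k1))) (by positivity)
    _ = (#(cl H s) * ⌊z⌋₊ ^ s) ^ 2 * #(cl H 2) ^ s := by
        rw [mul_pow, mul_comm s 2, pow_mul √_, Real.sq_sqrt a0.le]; ring
    _ ≤ _ := by gcongr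

theorem lim (s : ℕ) (M : ℝ) : Tendsto (fun k : ℕ => (1 - (k.descFactorial s / k ^ s : ℝ) ^ 2) * M +
    ((1 + M * (1 - k.descFactorial (s * 2) / k ^ (s * 2))) / (1 - 1 / k) ^ (s * 2) - 1) * M)
    atTop (𝓝 0) := by
  have h : ∀ a, Tendsto (fun k : ℕ => (k.descFactorial a / k ^ a : ℝ)) atTop (𝓝 1) := fun a =>
    (Asymptotics.isEquivalent_iff_tendsto_one (by
      filter_upwards [eventually_gt_atTop 0] with k hk; positivity)).1 (isEquivalent_descFactorial a)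
  simpa using ((((h s).pow 2).const_sub 1).mul_const M).add (((((((h (s * 2)).const_sub 1).const_mul
    M).const_add 1).div (((tendsto_one_div_atTop_nhds_zero_nat (𝕜 := ℝ)).const_sub 1).pow (s * 2))
      (by simp)).sub_const 1).mul_const M)

theorem alg {θ β u ε M X : ℝ} (e0 : 0 < ε) (u0 : ε ≤ u) (u2 : u ^ 2 ≤ M) (θ1 : θ ≤ 1) (β1 : 1 ≤ β)
    (hk : (1 - θ) * M + (β - 1) * M < ε ^ 2 / 2) (key : θ * u ^ 2 ≤ β * (u - ε) ^ 2 + X) :
    ε ^ 2 / 2 ≤ X := by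
  have : (u - ε) ^ 2 ≤ M := le_trans (by gcongr <;> linarith) u2
  nlinarith [mul_le_mul_of_nonneg_left this (sub_nonneg.2 β1),
    mul_le_mul_of_nonneg_left u2 (sub_nonneg.2 θ1), mul_le_mul_of_nonneg_left u0 e0.le]

theorem main {r s : ℕ} (hr : 2 ≤ r) {ε : ℝ} (e0 : 0 < ε) (e1 : ε ≤ 1) : ∃ δ > (0 : ℝ), ∃ m₀ : ℕ,
    ∀ (V : Type) [Fintype V] (G : SimpleGraph V) (m : ℕ), m₀ ≤ m → #(cl G 2) = 2 * m →
      (∀ (W : Type) [Fintype W] (H : SimpleGraph W), cl H (r + 1) = ∅ → #(cl H 2) = 2 * m →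
        #(cl H (s + 3)) + 2 * ε * √(2 * m) ^ (s + 3) ≤ #(cl G (s + 3))) →
      δ * √(2 * m) ^ (r + 1) ≤ #(cl G (r + 1)) := by
  obtain ⟨η, hη⟩ : ∃ η, η = ε / (s + 3) := ⟨_, rfl⟩
  have η0 : 0 < η := by rw [hη]; positivity
  have η1 : η ≤ 1 := by rw [hη, div_le_one (by positivity)]; linarith [(s.cast_nonneg : (0 : ℝ) ≤ s)]
  obtain ⟨M, hM⟩ : ∃ M, M = η⁻¹ ^ ((s + 3) * 2) := ⟨_, rfl⟩
  have M0 : 0 < M := by rw [hM]; positivity
  obtain ⟨k, hk, k2⟩ := (((lim (s + 3) M).eventually (gt_mem_nhds (half_pos (pow_pos e0 2)))).and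
    (eventually_ge_atTop 2)).exists
  have k0 : (2 : ℝ) ≤ k := by exact_mod_cast k2
  have k1 : (0 : ℝ) < 1 - 1 / k := sub_pos.2 ((div_lt_one (by linarith)).2 (by linarith))
  refine ⟨ε ^ 2 / 2 * ε ^ (r + 1) / (M * k ^ (r + 1)), by positivity, k ^ 4,
    fun V _ G m hm h2 h => ?_⟩
  obtain ⟨y, hy⟩ : ∃ y, y = √(2 * m) := ⟨_, rfl⟩
  have y1 : (k : ℝ) ^ 2 ≤ y := hy ▸ Real.le_sqrt_of_sq_le (by
    rw [← pow_mul]; exact_mod_cast hm.trans (by omega))
  have y0 : 0 < y := lt_of_lt_of_le (by positivity) y1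
  have y2 : (#(cl G 2) : ℝ) = y ^ 2 := by rw [hy, Real.sq_sqrt (by positivity), h2]; simp
  obtain ⟨G', hG⟩ : ∃ G', G' = G.comap (Subtype.val : {v // η * y < G.degree v} → V) := ⟨_, rfl⟩
  have sub : ∀ a, (#(cl G' a) : ℝ) ≤ #(cl G a) := fun a => Nat.cast_le.2 (card_le_card_of_injOn
    (Subtype.val ∘ ·) (fun x hx => by simpa [cl, hG] using hx) fun x _ y _ e =>
      Subtype.val_injective.comp_left e)
  have l1 := low G (fun v => η * y < G.degree v) (s := s + 1) (η * y) (fun v => not_lt.1)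
    (by positivity)
  have l2 : ((s + 1 : ℕ) + 2 : ℝ) * ((η * y) ^ (s + 1) * #(cl G 2)) ≤ ε * y ^ (s + 3) := by
    calc _ = (s + 3) * η * η ^ s * y ^ (s + 3) := by rw [y2]; push_cast; ring
      _ ≤ (s + 3) * η * 1 * y ^ (s + 3) := by gcongr; exact pow_le_one₀ η0.le η1
      _ = _ := by rw [hη]; field_simp
  obtain ⟨n, hn⟩ : ∃ n, n = Fintype.card {v // η * y < G.degree v} := ⟨_, rfl⟩
  have n1 : n / y ≤ η⁻¹ := by
    rw [div_le_iff₀ y0, ← div_eq_inv_mul, le_div_iff₀ η0, ← mul_le_mul_iff_left₀ y0, ← sq, ← y2,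
      cl_deg, hn, Fintype.card_subtype, mul_assoc, ← nsmul_eq_mul, Nat.cast_sum]
    exact (card_nsmul_le_sum _ _ _ fun v hv => (mem_filter.1 hv).2.le).trans
      (sum_le_sum_of_subset_of_nonneg (subset_univ _) fun _ _ _ => by positivity)
  obtain ⟨u, hu⟩ : ∃ u, u = #(cl G' (s + 3)) / y ^ (s + 3) := ⟨_, rfl⟩
  have hμ : ∀ (W : Type) [Fintype W] (H : SimpleGraph W), cl H (r + 1) = ∅ → #(cl H 2) = 2 * m →
      #(cl H (s + 3)) ≤ (u - ε) * y ^ (s + 3) := fun W _ H a b => by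
    have := h W H a b
    rw [← hy] at this; rw [← hG] at l1
    rw [sub_mul, hu, div_mul_cancel₀ _ (by positivity)]; linarith
  have u0 : ε ≤ u := by
    obtain ⟨U, _, K, a, b, -⟩ := pad (s := 0) hr (⊥ : SimpleGraph Empty) (by
      ext x; exact (x 0).elim) m
    have := (Nat.cast_nonneg _).trans (hμ U K a (by simpa [cl_two] using b))
    exact sub_nonneg.1 (nonneg_of_mul_nonneg_left this (by positivity))
  have u1 : u ≤ (n / y) ^ (s + 3) := by
    rw [hu, div_pow]; gcongr; exact_mod_cast (card_le_univ _).trans (by simp [hn])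
  have n2 : ε ≤ n / y := le_of_not_gt fun a => (u0.trans u1).not_gt
    ((pow_le_of_le_one (by positivity) (a.le.trans e1) (by simp)).trans_lt a)
  have n0 : (0 : ℝ) < n := by simpa [y0] using (div_pos_iff_of_pos_right y0).1 (e0.trans_le n2)
  have n3 : (n / y) ^ ((s + 3) * 2) ≤ M := by rw [hM]; gcongr
  have u2 : u ^ 2 ≤ M := le_trans (by rw [pow_mul]; gcongr; linarith) n3
  have := ineq G' (hn ▸ Nat.cast_pos.1 n0) (r := r + 1) (s := s + 3) (k := k)
    (c := (u - ε) ^ 2 / (1 - 1 / k) ^ ((s + 3) * 2)) (by positivity) fun H a => by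
      have := blow2 hr (by omega) (by omega) (hy ▸ y1) hμ H a
      rw [← hy, mul_pow, mul_pow, ← pow_mul, ← mul_assoc, mul_right_comm _ (y ^ _),
        mul_le_mul_iff_left₀ (by positivity)] at this
      rwa [div_mul_eq_mul_div, le_div_iff₀ (by positivity)]
  rw [← hn] at this
  obtain ⟨θ, hθ⟩ : ∃ θ, θ = (k.descFactorial (s + 3) / k ^ (s + 3) : ℝ) := ⟨_, rfl⟩
  obtain ⟨τ, hτ⟩ : ∃ θ, θ = (k.descFactorial ((s + 3) * 2) / k ^ ((s + 3) * 2) : ℝ) := ⟨_, rfl⟩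
  have d : ∀ a, (k.descFactorial a / k ^ a : ℝ) ≤ 1 := fun a => (div_le_one (by positivity)).2 (by
    exact_mod_cast Nat.descFactorial_le_pow k a)
  have θ1 : θ ^ 2 ≤ 1 := pow_le_one₀ (by rw [hθ]; positivity) (hθ ▸ d _)
  have τ1 : 0 ≤ 1 - τ := sub_nonneg.2 (hτ ▸ d _)
  obtain ⟨β, hβ⟩ : ∃ β, β = (1 + M * (1 - τ)) / (1 - 1 / k) ^ ((s + 3) * 2) := ⟨_, rfl⟩
  have β1 : 1 ≤ β := by
    rw [hβ, one_le_div (by positivity)]
    exact (pow_le_one₀ k1.le (by simp)).trans (by simp; positivity)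
  rw [← hθ, ← hτ, ← hβ] at hk
  have key : θ ^ 2 * u ^ 2 ≤ β * (u - ε) ^ 2 + M * (k ^ (r + 1) * (#(cl G (r + 1)) / n ^ (r + 1))) := by
    calc _ = (k.descFactorial (s + 3) * (#(cl G' (s + 3)) / n ^ (s + 3)) : ℝ) ^ 2 *
          ((n / y) ^ ((s + 3) * 2) / k ^ ((s + 3) * 2)) := by
          rw [hθ, hu]; simp only [pow_mul, div_pow]; field_simp
      _ ≤ _ := mul_le_mul_of_nonneg_right this (by positivity)
      _ = (#(cl G' 2) ^ (s + 3) / (y ^ 2) ^ (s + 3) + (n / y) ^ ((s + 3) * 2) * (1 - τ)) /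
          (1 - 1 / k) ^ ((s + 3) * 2) * (u - ε) ^ 2 + (n / y) ^ ((s + 3) * 2) *
            (k ^ (r + 1) * (#(cl G' (r + 1)) / n ^ (r + 1))) := by
          rw [hτ, ← pow_mul, mul_comm 2, div_pow]; field_simp
      _ ≤ _ := by
          rw [hβ]; gcongr
          · rw [div_le_one (by positivity), ← y2]; gcongr; exact_mod_cast sub 2
          · exact_mod_cast sub _
  have k3 := alg e0 u0 u2 θ1 β1 hk key
  rw [← hy, div_mul_eq_mul_div, div_le_iff₀ (by positivity), mul_assoc, ← mul_pow]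
  rw [← mul_div_assoc, ← mul_div_assoc, le_div_iff₀ (by positivity)] at k3
  calc _ ≤ ε ^ 2 / 2 * (n : ℝ) ^ (r + 1) := by gcongr; exact (le_div_iff₀ y0).1 n2
    _ ≤ _ := k3.trans_eq (by ring)

end Pool.Agent.H.MP_79ff05_co
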